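import Pool.Agent.Results.MP_a28cf0_nt.JointSteinInequality
import Pool.Agent.Q175.RW.JS2

/-!
# The slices of the joint limit laws of Maass forms (MP_a28cf0_nt)

Setting and definitions `HH`, `mu`, `vol`, `avg`, `ev`, `Eig`, `RO` of the file
`JointSteinInequality`: `U ⊆ HH` is open of finite area, `f n` are real eigenfunctions with spectral
parameters `t n → ∞` and microlocal quantum unique ergodicity, the mean of `f n⁴` over `U` is at
most `K` for large `n`, and `g i n` are eigenfunctions of lower frequencies, `s i n / t n → 0`.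

`ν` is a limit law: the weak limit, along a subsequence, of the joint laws of `f n` and the `g i n`
under the uniform probability measure on `U`. The theorem is a lower bound for `ν (A × B)`, for all
Borel sets `A` between `0` and `b` and all Borel sets `B ⊆ ℝ^k`, by the mass of the points of the
slice `ℝ × B` beyond `b`.
-/

set_option autoImplicit false
open MeasureTheory Filter Topology Complex
open scoped ContDiff ENNReal

namespace Pool.Agent.Results.MP_a28cf0_nt.JointSliceLaws

open Pool.Agent.W745.RW (TF dx dy)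
open Pool.Agent.Results.MP_a28cf0_nt.JointSteinInequality (HH mu vol avg ev Eig RO)

/-- the values beyond `b`, seen from zero: `x ≥ b` if `b > 0`, and `x ≤ b` if `b < 0` -/
def Beyond (b : ℝ) : Set ℝ := {x | b ∈ Set.uIcc 0 x}

/-- `ν` is the weak limit, along a subsequence, of the joint laws of `f n` and the `g i n` under the
uniform probability measure on `U` -/
def IsJointLimit (U : Set ℂ) {k : ℕ} (f : ℕ → ℂ → ℝ) (g : Fin k → ℕ → ℂ → ℝ)
    (ν : Measure (ℝ × (Fin k → ℝ))) : Prop :=
  ∃ σ : ℕ → ℕ, StrictMono σ ∧ ∀ F : ℝ × (Fin k → ℝ) → ℝ, Continuous F → (∃ M, ∀ p, |F p| ≤ M) →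
    Tendsto (fun n => avg U (fun z => F (f (σ n) z, fun i => g i (σ n) z))) atTop
      (𝓝 (∫ p, F p ∂ν))

/-- **Result.** Let `U` be a nonempty open subset of the upper half plane of finite area, `f n` real
eigenfunctions of the hyperbolic Laplacian on `U` with spectral parameters `t n → ∞`, microlocal
quantum unique ergodicity, `f n⁴` integrable and the mean of `f n⁴` at most `K` for large `n`,
`K ≥ 1`. Let `g i n` (`i < k`) be real eigenfunctions on `U` with spectral parameters `s i n`,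
`s i n / t n → 0`, bounded in `L²(S)` for compact `S ⊆ U`. Then every joint limit law `ν` of
`(f n, g n)` satisfies, for all real `b`, all Borel sets `A` between `0` and `b` and all Borel sets
`B ⊆ ℝ^k`: `(|A| |b| ν(Beyond b × B))² ≤ (K - 1) ν(A × B)`. -/
theorem result (U : Set ℂ) (hU : IsOpen U) (hne : U.Nonempty) (hUH : U ⊆ HH)
    (hfin : mu U Set.univ ≠ ⊤) (t : ℕ → ℝ) (ht : Tendsto t atTop atTop) (f : ℕ → ℂ → ℝ)
    (hf : ∀ n, Eig U (t n) (f n))
    (hqe : ∀ φ, TF U φ → ∀ k : ℕ, Tendsto (fun n => ∫ z, ((φ z / z.im ^ 2 : ℝ) : ℂ) *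
      ((f n z : ℂ) * (RO (ev (t n)))^[k] (fun w => (f n w : ℂ)) z)) atTop
      (𝓝 (if k = 0 then ((∫ z, φ z / z.im ^ 2 : ℝ) : ℂ) else 0)))
    (h4i : ∀ n, Integrable (fun z => f n z ^ 4) (mu U)) (K : ℝ) (hK : 1 ≤ K)
    (h4 : ∀ᶠ n in atTop, avg U (fun z => f n z ^ 4) ≤ K)
    (k : ℕ) (s : Fin k → ℕ → ℝ) (g : Fin k → ℕ → ℂ → ℝ) (hg : ∀ i n, Eig U (s i n) (g i n))
    (hs : ∀ i, Tendsto (fun n => s i n / t n) atTop (𝓝 0))
    (hgb : ∀ i, ∀ S : Set ℂ, IsCompact S → S ⊆ U →
      ∃ C' : ℝ, ∀ᶠ n in atTop, ∫ z in S, g i n z ^ 2 ≤ C')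
    (ν : Measure (ℝ × (Fin k → ℝ))) (hνp : IsProbabilityMeasure ν) (hν : IsJointLimit U f g ν)
    (b : ℝ) (A : Set ℝ) (B : Set (Fin k → ℝ)) (hA : MeasurableSet A) (hB : MeasurableSet B)
    (hAb : A ⊆ Set.uIoo 0 b) :
    ((volume A).toReal * (|b| * (ν (Beyond b ×ˢ B)).toReal)) ^ 2 ≤
      (K - 1) * (ν (A ×ˢ B)).toReal := by
  haveI : IsFiniteMeasure (mu U) := ⟨lt_top_iff_ne_top.2 hfin⟩
  have V0 : 0 < vol U := by
    refine ENNReal.toReal_pos ?_ hfin
    intro h0
    have h1 : mu U U = 0 := measure_mono_null (Set.subset_univ _) h0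
    rw [mu, withDensity_apply _ hU.measurableSet, Measure.restrict_restrict hU.measurableSet,
      Set.inter_self, lintegral_eq_zero_iff' (by
        have : Measurable (fun z : ℂ => ENNReal.ofReal (1 / z.im ^ 2)) :=
          (((measurable_im.pow_const 2).const_div 1)).ennreal_ofReal
        exact this.aemeasurable)] at h1
    have h2 : ∀ᵐ z ∂(volume.restrict U), False := by
      filter_upwards [h1, ae_restrict_mem hU.measurableSet] with z hz hzU
      have hz2 : 0 < z.im := hUH hzU
      have hz3 : ENNReal.ofReal (1 / z.im ^ 2) = 0 := hz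
      rw [ENNReal.ofReal_eq_zero] at hz3
      have : 0 < 1 / z.im ^ 2 := by positivity
      linarith
    rw [ae_iff] at h2
    simp only [not_false_eq_true, Set.ofPred_true, Measure.restrict_apply_univ] at h2
    exact (hU.measure_pos volume hne).ne' h2
  have mf : ∀ n, AEStronglyMeasurable (f n) (mu U) := by
    intro n
    exact (((hf n).1.continuousOn.aemeasurable hU.measurableSet).mono_ac
      (withDensity_absolutelyContinuous _ _)).aestronglyMeasurable
  have mg : ∀ n, AEStronglyMeasurable (fun z i => g i n z) (mu U) := by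
    intro n
    have c1 : ContinuousOn (fun z i => g i n z) U :=
      continuousOn_pi.2 fun i => (hg i n).1.continuousOn
    exact ((c1.aemeasurable hU.measurableSet).mono_ac
      (withDensity_absolutelyContinuous _ _)).aestronglyMeasurable
  have fi : ∀ n, Integrable (f n) (mu U) := by
    intro n
    refine ((h4i n).add (integrable_const 1)).mono' (mf n) (Eventually.of_forall fun z => ?_)
    show |f n z| ≤ f n z ^ 4 + 1
    rcases abs_cases (f n z) with ⟨h1, _⟩ | ⟨h1, _⟩ <;> rw [h1] <;>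
      nlinarith [sq_nonneg (f n z ^ 2 - 1 / 2), sq_nonneg (f n z - 1 / 2), sq_nonneg (f n z + 1 / 2)]
  have hS : ∀ W : ℝ × (Fin k → ℝ) → ℝ, ContDiff ℝ 1 W →
      (∃ M : ℝ, ∀ p, |W p| ≤ M ∧ ‖fderiv ℝ W p‖ ≤ M) → ∀ ε : ℝ, 0 < ε → ∀ᶠ n in atTop,
        ((∫ z, f n z * W (f n z, (fun z i => g i n z) z) ∂(mu U)) / vol U) ^ 2 ≤
        (avg U (fun z => f n z ^ 4) - 1) * ((∫ z, (fderiv ℝ W (f n z, (fun z i => g i n z) z)
          (1, 0)) ^ 2 ∂(mu U)) / vol U) + ε :=
    fun W hW hWb ε hε => Pool.Agent.Results.MP_a28cf0_nt.JointSteinInequality.result U hU hne hUH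
      hfin t ht f hf hqe h4i K h4 k s g hg hs hgb W hW hWb ε hε
  have main : ∀ (r : ℝ), (r = 1 ∨ r = -1) → ∀ b' : ℝ, 0 < b' → ∀ A' : Set ℝ, MeasurableSet A' →
      A' ⊆ Set.Ioo 0 b' → (b' * (volume A').toReal * (ν ({x | b' ≤ r * x} ×ˢ B)).toReal) ^ 2 ≤
        (K - 1) * (ν ({x | r * x ∈ A'} ×ˢ B)).toReal := by
    intro r hr b' hb' A' mA' hA'
    refine Pool.Agent.Q175.RW.JS.borel hb' hK ?_ mA' hB hA'
    intro CA VA CB VB q1 q2 q3 q4 q5 q6 q7
    exact Pool.Agent.Q175.RW.JS.core hK V0 fi mg hS h4 hν hr hb' CA VA CB VB q1 q2 q3 q4 q5 q6 q7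
  rcases lt_trichotomy b 0 with hb | hb | hb
  · have k1 := main (-1) (Or.inr rfl) (-b) (by linarith) (-A) hA.neg (by
      intro x hx
      have h1 := hAb hx
      rw [Set.uIoo_of_ge hb.le] at h1
      exact ⟨by linarith [h1.2], by linarith [h1.1]⟩)
    have e1 : {x : ℝ | -b ≤ -1 * x} = Beyond b := by
      ext x
      simp only [Beyond, Set.mem_setOf_eq, Set.mem_uIcc]
      constructor
      · intro h; right; constructor <;> linarith
      · rintro (⟨h1, h2⟩ | ⟨h1, h2⟩)
        · linarith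
        · linarith
    have e2 : {x : ℝ | -1 * x ∈ -A} = A := by
      ext x
      simp
    rw [e1, e2, Measure.measure_neg] at k1
    rw [abs_of_neg hb]
    calc _ = (-b * (volume A).toReal * (ν (Beyond b ×ˢ B)).toReal) ^ 2 := by ring
      _ ≤ _ := k1
  · subst hb
    have : 0 ≤ (K - 1) * (ν (A ×ˢ B)).toReal := mul_nonneg (by linarith) ENNReal.toReal_nonneg
    simpa using this
  · have k1 := main 1 (Or.inl rfl) b hb A hA (by
      intro x hx
      have h1 := hAb hx
      rwa [Set.uIoo_of_le hb.le] at h1)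
    have e1 : {x : ℝ | b ≤ 1 * x} = Beyond b := by
      ext x
      simp only [Beyond, Set.mem_setOf_eq, Set.mem_uIcc]
      constructor
      · intro h; left; constructor <;> linarith
      · rintro (⟨h1, h2⟩ | ⟨h1, h2⟩)
        · linarith
        · linarith
    have e2 : {x : ℝ | 1 * x ∈ A} = A := by
      ext x
      simp
    rw [e1, e2] at k1
    rw [abs_of_pos hb]
    calc _ = (b * (volume A).toReal * (ν (Beyond b ×ˢ B)).toReal) ^ 2 := by ring
      _ ≤ _ := k1

end Pool.Agent.Results.MP_a28cf0_nt.JointSliceLaws
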