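import Pool.Agent.Q175.RW.SJ3

/-!
# A Stein inequality for the joint distribution of Maass forms (MP_a28cf0_nt)

The plane is `ℂ`, `HH` is the upper half plane, `mu U` the measure `dx dy / y²` on `U`, `vol U` its
total mass and `avg U F` the mean `(∫_U F dμ) / vol U`. `dx f z`, `dy f z` are the partial
derivatives `fderiv ℝ f z 1`, `fderiv ℝ f z I`; `TF U φ` says that `φ : ℂ → ℝ` is smooth with
compact support contained in `U`.

`U ⊆ HH` is an open set of finite area, for instance the interior of a fundamental domain of the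
modular group. The hypothesis `hqe` is quantum unique ergodicity for `f n` in its microlocal form
on `U`, a theorem for Hecke-Maass cusp forms. The forms `g i n` have lower frequencies,
`s i n / t n → 0`; nothing else is assumed about them besides a bound in `L²` on compact sets.

If `f` and `(g_1, …, g_k)` were asymptotically independent and `f` Gaussian, as conjectured, then
`avg f W(f, g) - avg (∂_x W)(f, g) → 0` for all `W`, where `∂_x` is the derivative in the first
variable; and `avg f⁴ → 3`.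

Proof. For `G = y² |∇f|² / λ` integration by parts gives
`∫ φ f W(f, g) dμ = ∫ φ (∂_x W)(f, g) G dμ + o(1)`, as the gradients of the `g i` are small compared
with `λ^{1/2}`, and `∫ φ G² dμ = ∫ φ f⁴ dμ - ∫ φ dμ + o(1)` by the power spectrum of `f²`.
-/

set_option autoImplicit false
open MeasureTheory Filter Topology Complex
open scoped ContDiff ENNReal

namespace Pool.Agent.Results.MP_a28cf0_nt.JointSteinInequality

open Pool.Agent.W745.RW (TF dx dy lap)

/-- the open upper half plane -/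
def HH : Set ℂ := {z | 0 < z.im}

/-- the hyperbolic area `dx dy / y²` on `U` -/
noncomputable def mu (U : Set ℂ) : Measure ℂ :=
  (volume.restrict U).withDensity (fun z => ENNReal.ofReal (1 / z.im ^ 2))

/-- the total area of `U`, a real number -/
noncomputable def vol (U : Set ℂ) : ℝ := (mu U Set.univ).toReal

/-- the mean of `F` over `U` -/
noncomputable def avg (U : Set ℂ) (F : ℂ → ℝ) : ℝ := (∫ z, F z ∂(mu U)) / vol U

/-- the eigenvalue `1/4 + t²` -/
noncomputable def ev (t : ℝ) : ℝ := 1 / 4 + t ^ 2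

/-- `f` is a smooth real solution of `-y² (∂x² + ∂y²) f = (1/4 + t²) f` on `U` -/
def Eig (U : Set ℂ) (t : ℝ) (f : ℂ → ℝ) : Prop :=
  ContDiffOn ℝ ∞ f U ∧ ∀ z ∈ U, -(z.im ^ 2 * (dx (dx f) z + dy (dy f) z)) = ev t * f z

/-- the operator `f ↦ lam^{-1/2} y (∂x f - i ∂y f)` -/
noncomputable def RO (lam : ℝ) (f : ℂ → ℂ) (z : ℂ) : ℂ :=
  ((z.im / √lam : ℝ) : ℂ) * (dx f z - I * dy f z)

/-- **Result.** Let `U` be a nonempty open subset of the upper half plane of finite area, `f n` real
eigenfunctions of the hyperbolic Laplacian on `U` with spectral parameters `t n → ∞`, microlocal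
quantum unique ergodicity, `f n⁴` integrable and the mean of `f n⁴` bounded. Let `g i n` (`i < k`)
be real eigenfunctions on `U` with spectral parameters `s i n`, `s i n / t n → 0`, bounded in
`L²(S)` for compact `S ⊆ U`. Then for every `C¹` function `W` on `ℝ × ℝ^k` which is bounded
together with its derivative, and every `ε > 0`, for all large `n`
`(avg f W(f, g))² ≤ (avg f⁴ - 1) avg ((∂_x W)(f, g))² + ε`. -/
theorem result (U : Set ℂ) (hU : IsOpen U) (hne : U.Nonempty) (hUH : U ⊆ HH)
    (hfin : mu U Set.univ ≠ ⊤) (t : ℕ → ℝ) (ht : Tendsto t atTop atTop) (f : ℕ → ℂ → ℝ)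
    (hf : ∀ n, Eig U (t n) (f n))
    (hqe : ∀ φ, TF U φ → ∀ k : ℕ, Tendsto (fun n => ∫ z, ((φ z / z.im ^ 2 : ℝ) : ℂ) *
      ((f n z : ℂ) * (RO (ev (t n)))^[k] (fun w => (f n w : ℂ)) z)) atTop
      (𝓝 (if k = 0 then ((∫ z, φ z / z.im ^ 2 : ℝ) : ℂ) else 0)))
    (h4i : ∀ n, Integrable (fun z => f n z ^ 4) (mu U)) (C : ℝ)
    (h4 : ∀ᶠ n in atTop, avg U (fun z => f n z ^ 4) ≤ C)
    (k : ℕ) (s : Fin k → ℕ → ℝ) (g : Fin k → ℕ → ℂ → ℝ) (hg : ∀ i n, Eig U (s i n) (g i n))
    (hs : ∀ i, Tendsto (fun n => s i n / t n) atTop (𝓝 0))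
    (hgb : ∀ i, ∀ S : Set ℂ, IsCompact S → S ⊆ U →
      ∃ C' : ℝ, ∀ᶠ n in atTop, ∫ z in S, g i n z ^ 2 ≤ C')
    (W : ℝ × (Fin k → ℝ) → ℝ) (hW : ContDiff ℝ 1 W)
    (hWb : ∃ M : ℝ, ∀ p, |W p| ≤ M ∧ ‖fderiv ℝ W p‖ ≤ M) (ε : ℝ) (hε : 0 < ε) :
    ∀ᶠ n in atTop, avg U (fun z => f n z * W (f n z, fun i => g i n z)) ^ 2 ≤
      (avg U (fun z => f n z ^ 4) - 1) *
        avg U (fun z => (fderiv ℝ W (f n z, fun i => g i n z) (1, 0)) ^ 2) + ε := by
  obtain ⟨M, hM⟩ := hWb
  have ep : ∀ r, 0 < ev r := fun r => by unfold ev; positivity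
  have el : Tendsto (fun n => ev (t n)) atTop atTop :=
    tendsto_atTop_add_const_left _ _ ((tendsto_pow_atTop two_ne_zero).comp ht)
  have V0 : 0 < vol U := by
    refine ENNReal.toReal_pos ?_ hfin
    intro h0
    have h1 : mu U U = 0 := measure_mono_null (Set.subset_univ _) h0
    rw [mu, withDensity_apply _ hU.measurableSet, Measure.restrict_restrict hU.measurableSet,
      Set.inter_self, lintegral_eq_zero_iff' (by
        have : Measurable (fun z : ℂ => ENNReal.ofReal (1 / z.im ^ 2)) :=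
          (((measurable_im.pow_const 2).const_div 1)).ennreal_ofReal
        exact this.aemeasurable)] at h1
    have h2 : ∀ᵐ z ∂(volume.restrict U), False := by
      filter_upwards [h1, ae_restrict_mem hU.measurableSet] with z hz hzU
      have hz2 : 0 < z.im := hUH hzU
      have hz3 : ENNReal.ofReal (1 / z.im ^ 2) = 0 := hz
      rw [ENNReal.ofReal_eq_zero] at hz3
      have : 0 < 1 / z.im ^ 2 := by positivity
      linarith
    rw [ae_iff] at h2
    simp only [not_false_eq_true, Set.ofPred_true, Measure.restrict_apply_univ] at h2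
    exact (hU.measure_pos volume hne).ne' h2
  have h4' : ∀ ε : ℝ, 0 < ε → ∀ᶠ n in atTop, ∫ z, f n z ^ 4 ∂(mu U) ≤ C * vol U + ε := by
    intro e he
    filter_upwards [h4] with n hn
    rw [avg, div_le_iff₀ V0] at hn
    linarith
  have X : Pool.Agent.Q175.RW.LL.LD U (fun z => 1 / z.im ^ 2) (fun n => ev (t n)) f
      Pool.Agent.TH294.RG.unif C :=
    Pool.Agent.Q175.RW.LH.ld hU hne hUH hfin (fun n => ep _) el (fun n => (hf n).1)
      (fun n z hz => by
        have h1 := (hf n).2 z hz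
        have h2 : lap (f n) z = dx (dx (f n)) z + dy (dy (f n)) z := rfl
        rw [h2]; linarith) hqe h4i h4'
  have sρ : ContDiffOn ℝ ∞ (fun z : ℂ => 1 / z.im ^ 2) U := X.sρ
  have sl : ∀ i, Pool.Agent.Q175.RW.SJ.Slow U (fun n => 1 / √(ev (t n))) (g i) := by
    intro i
    refine Pool.Agent.Q175.RW.SJ.slow_one hU sρ (lam := fun n => ev (t n))
      (mu := fun n => ev (s i n)) (fun n => ep _) (c := 1 / 4) (by norm_num)
      (fun n => by unfold ev; nlinarith [sq_nonneg (s i n)]) ?_ (fun n => (hg i n).1)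
      (fun n z hz => ?_) (hgb i)
    · have b1 : Tendsto (fun n => (1 / 4) / t n ^ 2 + (s i n / t n) ^ 2) atTop (𝓝 0) := by
        have c1 : Tendsto (fun n => (1 / 4 : ℝ) / t n ^ 2) atTop (𝓝 0) :=
          Tendsto.div_atTop tendsto_const_nhds ((tendsto_pow_atTop two_ne_zero).comp ht)
        simpa using c1.add ((hs i).pow 2)
      refine squeeze_zero' (Eventually.of_forall fun n => (div_pos (ep _) (ep _)).le) ?_ b1
      filter_upwards [ht.eventually_gt_atTop 0] with n hn
      show ev (s i n) / ev (t n) ≤ _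
      have e1 : (1 / 4) / t n ^ 2 + (s i n / t n) ^ 2 = ev (s i n) / t n ^ 2 := by
        unfold ev; field_simp
      rw [e1]
      refine div_le_div_of_nonneg_left (ep _).le (by positivity) ?_
      unfold ev; linarith
    · have h1 := (hg i n).2 z hz
      have h2 : lap (g i n) z = dx (dx (g i n)) z + dy (dy (g i n)) z := rfl
      have h3 : 0 < z.im := hUH hz
      have h4 : z.im ^ 2 ≠ 0 := by positivity
      rw [h2]
      field_simp
      linarith
  have mg : ∀ n, AEStronglyMeasurable (fun z i => g i n z) (mu U) := by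
    intro n
    have c1 : ContinuousOn (fun z i => g i n z) U :=
      continuousOn_pi.2 fun i => (hg i n).1.continuousOn
    exact ((c1.aemeasurable hU.measurableSet).mono_ac
      (withDensity_absolutelyContinuous _ _)).aestronglyMeasurable
  have key := Pool.Agent.Q175.RW.SJ.joint_stein X (Pool.Agent.Q175.RW.SJ.slow_pi hU sl) mg hW
    (M := M) (fun p => (hM p).1) (fun p => (hM p).2) (show 0 < ε * vol U ^ 2 by positivity)
  filter_upwards [key] with n hn
  obtain ⟨I1, hI⟩ : ∃ I1, I1 = ∫ z, f n z * W (f n z, fun i => g i n z) ∂(mu U) := ⟨_, rfl⟩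
  obtain ⟨A1, hA⟩ : ∃ A1, A1 = ∫ z, f n z ^ 4 ∂(mu U) := ⟨_, rfl⟩
  obtain ⟨J1, hJ⟩ : ∃ J1, J1 = ∫ z, (fderiv ℝ W (f n z, fun i => g i n z) (1, 0)) ^ 2 ∂(mu U) :=
    ⟨_, rfl⟩
  have hn' : I1 ^ 2 ≤ (A1 - vol U) * J1 + ε * vol U ^ 2 := by rw [hI, hA, hJ]; exact hn
  unfold avg
  rw [← hI, ← hA, ← hJ]
  have e1 : (A1 / vol U - 1) * (J1 / vol U) + ε =
      ((A1 - vol U) * J1 + ε * vol U ^ 2) / vol U ^ 2 := by
    field_simp
  rw [e1, div_pow]
  exact div_le_div_of_nonneg_right hn' (by positivity)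

end Pool.Agent.Results.MP_a28cf0_nt.JointSteinInequality
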