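import Pool.Agent.Q30.JL.Laws2
import Pool.Agent.Q30.JL.Bump
import Pool.Agent.Results.MP_a54f13_nt.OneBand

set_option autoImplicit false

/-!
MP_a28cf0_nt. The joint Gaussian moments conjecture for orthogonal Hecke-Maass cusp forms is equivalent to the joint
Gaussian limit law together with the boundedness of the moments of single forms on one band `a ≤ Im z ≤ 4 a`,
arbitrarily high in the cusp. The same holds along every class (for instance every sequence) of families, order by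
order.
-/

open MeasureTheory ProbabilityTheory Filter Topology

namespace Pool.Agent.Results.MP_a28cf0_nt.LawsAndOneBand

/-- the standard fundamental domain of `SL(2, ℤ)` -/
def F : Set ℂ := {z : ℂ | 0 < z.im ∧ |z.re| ≤ 1 / 2 ∧ 1 ≤ ‖z‖}

/-- `f` is a real-valued Hecke-Maass cusp form for `SL(2, ℤ)` with the eigenvalue `1/4 + t²`, `t ≥ 1`, and with
`(1 / vol X) ∫ f² = 1`, `vol X = π / 3`. -/
structure HeckeMaass (f : ℂ → ℝ) (t : ℝ) : Prop where
  one_le : 1 ≤ t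
  smooth : ContDiffOn ℝ 2 f {z : ℂ | 0 < z.im}
  invariant : ∀ z : ℂ, 0 < z.im → f (z + 1) = f z ∧ f (-z⁻¹) = f z
  eigen : ∀ z : ℂ, 0 < z.im →
    -(z.im ^ 2) * (deriv (deriv (fun u : ℝ => f (z + (u : ℂ)))) 0 +
      deriv (deriv (fun u : ℝ => f (z + (u : ℂ) * Complex.I))) 0) = (1 / 4 + t ^ 2) * f z
  cuspidal : ∀ y : ℝ, 0 < y → ∫ x in (0 : ℝ)..1, f ((x : ℂ) + (y : ℂ) * Complex.I) = 0
  normalised : 1 / (Real.pi / 3) * (∫ z in F, f z ^ 2 / z.im ^ 2) = 1
  hecke : ∀ n : ℕ, 1 ≤ n → ∃ c : ℝ, ∀ z : ℂ, 0 < z.im →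
    ∑ d ∈ n.divisors, ∑ b ∈ Finset.range d, f ((((n / d : ℕ) : ℂ) * z + (b : ℂ)) / (d : ℂ)) = c * f z

/-- `ψ` is a test function: smooth, `SL(2, ℤ)`-invariant and zero high in the cusp -/
structure Test (ψ : ℂ → ℝ) : Prop where
  smooth : ∀ n : ℕ, ContDiffOn ℝ n ψ {z : ℂ | 0 < z.im}
  invariant : ∀ z : ℂ, 0 < z.im → ψ (z + 1) = ψ z ∧ ψ (-z⁻¹) = ψ z
  cusp : ∃ Y : ℝ, ∀ z : ℂ, Y ≤ z.im → ψ z = 0

/-- a class of `I`-tuples `f` of forms with the parameters `t` -/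
abbrev Class (I : ℕ) : Type := (Fin I → ℂ → ℝ) → (Fin I → ℝ) → Prop

/-- the orthogonal tuples -/
def Orth (I : ℕ) : Class I := fun f _ => ∀ i j, i ≠ j → ∫ z in F, f i z * f j z / z.im ^ 2 = 0

/-- the tuples of Hecke-Maass forms in the class `P` with all parameters at least `T` -/
def Tuple {I : ℕ} (P : Class I) (T : ℝ) (f : Fin I → ℂ → ℝ) : Prop :=
  ∃ t : Fin I → ℝ, (∀ i, T ≤ t i ∧ HeckeMaass (f i) (t i)) ∧ P f t

/-- the moment of order `n` of a standard Gaussian variable -/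
noncomputable def gmom (n : ℕ) : ℝ := ∫ x, x ^ n ∂(gaussianReal 0 1)

/-- in the class `P` the joint moment with the exponents `e i ≥ 0` tends to the Gaussian value -/
def Moments {I : ℕ} (P : Class I) (e : Fin I → ℕ) : Prop := ∀ ψ : ℂ → ℝ, Test ψ → ∀ ε : ℝ, 0 < ε →
  ∃ T : ℝ, ∀ f, Tuple P T f →
    |(∫ z in F, ψ z * (∏ i, f i z ^ e i) / z.im ^ 2) - (∏ i, gmom (e i)) * ∫ z in F, ψ z / z.im ^ 2| < ε

/-- in the class `P` the joint law tends to the standard Gaussian law (in terms of characteristic functions) -/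
def Laws {I : ℕ} (P : Class I) : Prop := ∀ (ξ : Fin I → ℝ) (ψ : ℂ → ℝ), Test ψ → ∀ ε : ℝ, 0 < ε →
  ∃ T : ℝ, ∀ f, Tuple P T f →
    ‖(∫ z in F, (ψ z : ℂ) * Complex.exp ((∑ i, ξ i * f i z : ℝ) * Complex.I) / (z.im : ℂ) ^ 2) -
      Complex.exp (-(((∑ i, ξ i ^ 2 : ℝ) : ℂ) / 2)) * ∫ z in F, (ψ z : ℂ) / (z.im : ℂ) ^ 2‖ < ε

/-- the band `|Re z| ≤ 1/2`, `a ≤ Im z ≤ 4 a`, of hyperbolic area `3 / (4 a)` -/
def band (a : ℝ) : Set ℂ := {z : ℂ | |z.re| ≤ 1 / 2 ∧ a ≤ z.im ∧ z.im ≤ 4 * a}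

/-- the moments of order `n` on the band of the forms of the tuples in the class `P` are bounded, for large
parameters -/
def BandBounded {I : ℕ} (P : Class I) (a : ℝ) (n : ℕ) : Prop := ∃ C T : ℝ, ∀ f, Tuple P T f → ∀ i,
  ∫ z in band a, |f i z| ^ n / z.im ^ 2 ≤ C

/-- the joint Gaussian moments conjecture (Q1) -/
def Q1 : Prop := ∀ I : ℕ, 1 ≤ I → ∀ e : Fin I → ℕ, (∀ i, 0 < e i) → Moments (Orth I) e

open Pool.Agent.Q30.JL (Conv Good LL mass ee mon G dot KY FD)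

lemma HeckeMaass.old {f : ℂ → ℝ} {t : ℝ} (h : HeckeMaass f t) :
    Pool.Agent.Results.MP_a54f13_nt.OneBand.HeckeMaass (fun z => (f z : ℂ)) t where
  one_le := h.one_le
  smooth := Complex.ofRealCLM.contDiff.comp_contDiffOn h.smooth
  invariant := fun z hz => by
    obtain ⟨h1, h2⟩ := h.invariant z hz
    simp only [h1, h2, and_self]
  eigen := fun z hz => by
    have hd : ∀ g : ℝ → ℝ, deriv (fun u => (g u : ℂ)) = fun u => ((deriv g u : ℝ) : ℂ) := by
      intro g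
      funext u
      by_cases hg : DifferentiableAt ℝ g u
      · exact hg.hasDerivAt.ofReal_comp.deriv
      · rw [deriv_zero_of_not_differentiableAt hg, Complex.ofReal_zero]
        apply deriv_zero_of_not_differentiableAt
        intro hcon
        apply hg
        have := Complex.reCLM.differentiableAt.comp u hcon
        exact this
    have h1 := h.eigen z hz
    rw [hd (fun u : ℝ => f (z + (u : ℂ))), hd (fun u : ℝ => f (z + (u : ℂ) * Complex.I)), hd, hd]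
    have h2 := congrArg (fun x : ℝ => (x : ℂ)) h1
    push_cast at h2
    linear_combination h2
  cuspidal := fun y hy => by
    have h1 := h.cuspidal y hy
    rw [intervalIntegral.integral_ofReal, h1, Complex.ofReal_zero]
  normalised := by
    have h1 := h.normalised
    simp only [Complex.norm_real, Real.norm_eq_abs, sq_abs]
    exact h1
  hecke := fun n hn => by
    obtain ⟨c, hc⟩ := h.hecke n hn
    refine ⟨c, fun z hz => ?_⟩
    have h2 := congrArg (fun x : ℝ => (x : ℂ)) (hc z hz)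
    push_cast at h2
    exact h2

lemma test_old {ψ : ℂ → ℝ} : Test ψ ↔ Pool.Agent.Q30.JL.Test ψ :=
  ⟨fun h => ⟨h.smooth, h.invariant, h.cusp⟩, fun h => ⟨h.smooth, h.invariant, h.cusp⟩⟩

variable {I : ℕ}

lemma good (P : Class I) (T₀ : ℝ) : Good (fun T f => Tuple P (max T T₀) f) where
  mono := fun T T' f h => by
    rintro ⟨t, ht, hP⟩
    exact ⟨t, fun i => ⟨(max_le_max_right _ h).trans (ht i).1, (ht i).2⟩, hP⟩
  cont := fun T f => by
    rintro ⟨t, ht, hP⟩ i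
    exact (ht i).2.smooth.continuousOn

lemma shift {P : Class I} {T T' : ℝ} (h : T ≤ T') {f : Fin I → ℂ → ℝ} (hf : Tuple P T' f) : Tuple P T f := by
  obtain ⟨t, ht, hP⟩ := hf
  exact ⟨t, fun i => ⟨h.trans (ht i).1, (ht i).2⟩, hP⟩

lemma gauss_mon (e : Fin I → ℕ) : ∫ x, (mon e x : ℂ) ∂(G I) = ((∏ i, gmom (e i) : ℝ) : ℂ) := by
  rw [integral_complex_ofReal, Pool.Agent.Q30.JL.mon_integral]
  rfl

lemma mon_value (ψ : ℂ → ℝ) (f : Fin I → ℂ → ℝ) (e : Fin I → ℕ) :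
    ‖LL ψ f (fun x => (mon e x : ℂ)) - mass ψ * ∫ x, (mon e x : ℂ) ∂(G I)‖ =
      |(∫ z in F, ψ z * (∏ i, f i z ^ e i) / z.im ^ 2) - (∏ i, gmom (e i)) * ∫ z in F, ψ z / z.im ^ 2| := by
  rw [gauss_mon, Pool.Agent.Q30.JL.LL_real, Pool.Agent.Q30.JL.mass_real, ← Complex.ofReal_mul, ← Complex.ofReal_sub,
    Complex.norm_real, Real.norm_eq_abs, mul_comm (∫ z in FD, ψ z / z.im ^ 2)]
  rfl

lemma moments_iff {P : Class I} {e : Fin I → ℕ} (T₀ : ℝ) :
    Moments P e ↔ Conv (fun T f => Tuple P (max T T₀) f) (fun x => (mon e x : ℂ)) := by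
  constructor
  · intro h
    refine ⟨Complex.continuous_ofReal.comp (Pool.Agent.Q30.JL.mon_cont e), (Pool.Agent.Q30.JL.mon_int e).ofReal,
      fun ψ hψ ε hε => ?_⟩
    obtain ⟨T, hT⟩ := h ψ (test_old.2 hψ) ε hε
    refine ⟨T, fun f hf => ?_⟩
    rw [mon_value]
    exact hT f (shift (le_max_left _ _) hf)
  · intro h ψ hψ ε hε
    obtain ⟨T, hT⟩ := h.2.2 ψ (test_old.1 hψ) ε hε
    refine ⟨max T T₀, fun f hf => ?_⟩
    have := hT f hf
    rwa [mon_value] at this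

lemma laws_iff {P : Class I} (T₀ : ℝ) : Laws P ↔ ∀ ξ, Conv (fun T f => Tuple P (max T T₀) f) (ee ξ) := by
  have hval : ∀ (ψ : ℂ → ℝ) (f : Fin I → ℂ → ℝ) (ξ : Fin I → ℝ), LL ψ f (ee ξ) - mass ψ * ∫ x, ee ξ x ∂(G I) =
      (∫ z in F, (ψ z : ℂ) * Complex.exp ((∑ i, ξ i * f i z : ℝ) * Complex.I) / (z.im : ℂ) ^ 2) -
      Complex.exp (-(((∑ i, ξ i ^ 2 : ℝ) : ℂ) / 2)) * ∫ z in F, (ψ z : ℂ) / (z.im : ℂ) ^ 2 := by
    intro ψ f ξ
    have h1 : ∫ x, ee ξ x ∂(G I) = Complex.exp (-(((∑ i, ξ i ^ 2 : ℝ) : ℂ) / 2)) := Pool.Agent.Q30.JL.charG ξ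
    rw [h1, mul_comm (mass ψ)]
    rfl
  constructor
  · intro h ξ
    refine ⟨Pool.Agent.Q30.JL.ee_cont ξ, ?_, fun ψ hψ ε hε => ?_⟩
    · refine (integrable_const (1 : ℝ)).mono' (Pool.Agent.Q30.JL.ee_cont ξ).aestronglyMeasurable
        (Eventually.of_forall fun x => ?_)
      unfold ee
      rw [Complex.norm_exp_ofReal_mul_I]
    · obtain ⟨T, hT⟩ := h ξ ψ (test_old.2 hψ) ε hε
      refine ⟨T, fun f hf => ?_⟩
      rw [hval]
      exact hT f (shift (le_max_left _ _) hf)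
  · intro h ξ ψ hψ ε hε
    obtain ⟨T, hT⟩ := (h ξ).2.2 ψ (test_old.1 hψ) ε hε
    refine ⟨max T T₀, fun f hf => ?_⟩
    have := hT f hf
    rwa [hval] at this

lemma band_eq (a : ℝ) : Pool.Agent.Results.MP_a54f13_nt.OneBand.band a = band a := rfl

lemma moment_eq (f : ℂ → ℝ) (n : ℕ) (E : Set ℂ) :
    Pool.Agent.Results.MP_a54f13_nt.OneBand.moment (fun z => (f z : ℂ)) (n : ℝ) E = ∫ z in E, |f z| ^ n / z.im ^ 2 := by
  unfold Pool.Agent.Results.MP_a54f13_nt.OneBand.moment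
  simp only [Complex.norm_real, Real.norm_eq_abs, Real.rpow_natCast]

/-- transfer of moments from a band to a compact set -/
lemma transfer {a : ℝ} (ha : 0 < a) {K : Set ℂ} (hK : IsCompact K) (hKs : K ⊆ {z : ℂ | 0 < z.im}) (n : ℕ) :
    ∃ C : ℝ, 0 < C ∧ ∀ (f : ℂ → ℝ) (t : ℝ), HeckeMaass f t →
      ∫ z in K, |f z| ^ (n + 1) / z.im ^ 2 ≤ C * ∫ z in band a, |f z| ^ (n + 1) / z.im ^ 2 := by
  obtain ⟨C, hC, h⟩ := (Pool.Agent.Results.MP_a54f13_nt.OneBand.result a ha K hK hKs).2.2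
  refine ⟨C ^ (((n + 1 : ℕ) : ℝ) + 1), by positivity, fun f t hf => ?_⟩
  have h1 := h _ t hf.old ((n + 1 : ℕ) : ℝ) (by positivity)
  rwa [moment_eq, moment_eq] at h1

theorem moments_of_laws {a : ℝ} (ha : 0 < a) (P : Class I) (n : ℕ) (hB : BandBounded P a (n + 1)) (hL : Laws P)
    (e : Fin I → ℕ) (he : ∑ i, e i = n) : Moments P e := by
  obtain ⟨C, T₀, hC⟩ := hB
  rw [moments_iff T₀]
  refine Pool.Agent.Q30.JL.conv_mon (good P T₀) ((laws_iff T₀).1 hL) e fun Y => ?_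
  obtain ⟨D, hD, h⟩ := transfer ha (Pool.Agent.Q30.JL.KY_compact Y) (Pool.Agent.Q30.JL.KY_sub Y) n
  refine ⟨D * C, fun T f hf i => ?_⟩
  rw [he]
  have h1 := hC f (shift (le_max_right _ _) hf) i
  obtain ⟨t, ht, hP⟩ := hf
  refine (h (f i) (t i) (ht i).2).trans ?_
  gcongr

lemma band_sub {a : ℝ} (ha : 0 < a) : band a ⊆ {z : ℂ | 0 < z.im} := fun _ hz => lt_of_lt_of_le ha hz.2.1

lemma band_one : band 1 ⊆ F := by
  rintro z ⟨h1, h2, h3⟩
  exact ⟨by linarith, h1, h2.trans ((le_abs_self _).trans (Complex.abs_im_le_norm z))⟩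

lemma band_compact (a : ℝ) : IsCompact (band a) := Pool.Agent.Results.MP_a54f13_nt.OneBand.band_compact a

lemma mono_single (e : ℕ) (i : Fin I) (x : Fin I → ℝ) : ∏ j, x j ^ (Pi.single i e : Fin I → ℕ) j = x i ^ e := by
  rw [Finset.prod_eq_single i]
  · simp
  · intro j _ hj
    simp [Pi.single_eq_of_ne hj]
  · simp

theorem band_of_moments {a : ℝ} (ha : 0 < a) (P : Class I) (h : ∀ e : Fin I → ℕ, Moments P e) (n : ℕ) :
    BandBounded P a n := by
  obtain ⟨ψ, p1, p2, p3, p4, p5⟩ := Pool.Agent.Q30.JL.exists_bump (band 1) (band_compact 1) (band_sub one_pos)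
  have hψ : Test ψ := ⟨p1, p2, p3⟩
  obtain ⟨D, hD, hDt⟩ := transfer one_pos (band_compact a) (band_sub ha) (2 * n + 1)
  have hT : ∀ i : Fin I, ∃ B T : ℝ, ∀ f, Tuple P T f → ∫ z in F, ψ z * f i z ^ (2 * n + 1 + 1) / z.im ^ 2 ≤ B := by
    intro i
    obtain ⟨T, hT⟩ := h (Pi.single i (2 * n + 1 + 1)) ψ hψ 1 one_pos
    refine ⟨1 + (∏ j, gmom ((Pi.single i (2 * n + 1 + 1) : Fin I → ℕ) j)) * ∫ z in F, ψ z / z.im ^ 2, T, fun f hf => ?_⟩
    have h1 := (abs_lt.1 (hT f hf)).2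
    have e1 : ∀ z, ∏ j, f j z ^ (Pi.single i (2 * n + 1 + 1) : Fin I → ℕ) j = f i z ^ (2 * n + 1 + 1) := fun z =>
      mono_single _ i fun j => f j z
    simp_rw [e1] at h1
    linarith
  choose B T hBT using hT
  refine ⟨(∫ z in band a, 1 / z.im ^ 2) + D * ∑ i, |B i|, ∑ i, |T i|, fun f hf i => ?_⟩
  have hTi : T i ≤ ∑ j, |T j| :=
    (le_abs_self _).trans (Finset.single_le_sum (f := fun j => |T j|) (fun j _ => abs_nonneg _) (Finset.mem_univ i))
  have hBi : B i ≤ ∑ j, |B j| :=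
    (le_abs_self _).trans (Finset.single_le_sum (f := fun j => |B j|) (fun j _ => abs_nonneg _) (Finset.mem_univ i))
  have h1 := hBT i f (shift hTi hf)
  obtain ⟨t, ht, hP⟩ := hf
  have hfc : ContinuousOn (f i) {z : ℂ | 0 < z.im} := (ht i).2.smooth.continuousOn
  have hint : ∀ (K : Set ℂ), IsCompact K → K ⊆ {z : ℂ | 0 < z.im} → ∀ g : ℂ → ℝ, ContinuousOn g {z : ℂ | 0 < z.im} →
      IntegrableOn (fun z => g z / z.im ^ 2) K := by
    intro K hK hKs g hg
    refine ContinuousOn.integrableOn_compact hK ?_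
    apply (hg.mono hKs).div (Complex.continuous_im.pow 2).continuousOn
    intro z hz
    have h0 : 0 < z.im := hKs hz
    exact (pow_pos h0 2).ne'
  have hpow : ∀ k : ℕ, ContinuousOn (fun z => |f i z| ^ k) {z : ℂ | 0 < z.im} := fun k => (hfc.abs).pow k
  -- reduction to even exponents
  have h2 : ∫ z in band a, |f i z| ^ n / z.im ^ 2 ≤
      (∫ z in band a, 1 / z.im ^ 2) + ∫ z in band a, |f i z| ^ (2 * n + 1 + 1) / z.im ^ 2 := by
    rw [← integral_add (hint _ (band_compact a) (band_sub ha) _ continuousOn_const)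
      (hint _ (band_compact a) (band_sub ha) _ (hpow _))]
    apply setIntegral_mono_on (hint _ (band_compact a) (band_sub ha) _ (hpow _))
      ((hint _ (band_compact a) (band_sub ha) _ continuousOn_const).add
        (hint _ (band_compact a) (band_sub ha) _ (hpow _))) (band_compact a).isClosed.measurableSet
    intro z hz
    show |f i z| ^ n / z.im ^ 2 ≤ 1 / z.im ^ 2 + |f i z| ^ (2 * n + 1 + 1) / z.im ^ 2
    rw [← add_div]
    gcongr
    rcases le_total |f i z| 1 with hx | hx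
    · have : |f i z| ^ n ≤ 1 := pow_le_one₀ (abs_nonneg _) hx
      have : 0 ≤ |f i z| ^ (2 * n + 1 + 1) := by positivity
      linarith
    · have : |f i z| ^ n ≤ |f i z| ^ (2 * n + 1 + 1) := pow_le_pow_right₀ hx (by omega)
      linarith
  -- the band 1
  have h3 : ∫ z in band 1, |f i z| ^ (2 * n + 1 + 1) / z.im ^ 2 ≤ ∫ z in F, ψ z * f i z ^ (2 * n + 1 + 1) / z.im ^ 2 := by
    have hev : Even (2 * n + 1 + 1) := ⟨n + 1, by ring⟩
    have e1 : ∫ z in band 1, |f i z| ^ (2 * n + 1 + 1) / z.im ^ 2 =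
        ∫ z in band 1, ψ z * f i z ^ (2 * n + 1 + 1) / z.im ^ 2 := by
      apply setIntegral_congr_fun (band_compact 1).isClosed.measurableSet
      intro z hz
      simp only [p5 z hz, one_mul, hev.pow_abs]
    rw [e1]
    apply setIntegral_mono_set
    · have h4 := (Pool.Agent.Q30.JL.integrable_L (test_old.1 hψ) (g := fun z => ((f i z ^ (2 * n + 1 + 1) : ℝ) : ℂ))
        (Complex.continuous_ofReal.comp_continuousOn (hfc.pow _))).re
      refine h4.congr (Eventually.of_forall fun z => ?_)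
      simp only [RCLike.re_to_complex]
      have e2 : (ψ z : ℂ) * ((f i z ^ (2 * n + 1 + 1) : ℝ) : ℂ) / (z.im : ℂ) ^ 2 =
          ((ψ z * f i z ^ (2 * n + 1 + 1) / z.im ^ 2 : ℝ) : ℂ) := by push_cast; rfl
      rw [e2, Complex.ofReal_re]
    · refine Eventually.of_forall fun z => ?_
      have := p4 z
      have : 0 ≤ f i z ^ (2 * n + 1 + 1) := hev.pow_nonneg _
      positivity
    · exact Eventually.of_forall band_one
  refine h2.trans ?_
  gcongr
  refine (hDt (f i) (t i) (ht i).2).trans ?_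
  gcongr
  exact h3.trans (h1.trans hBi)

theorem iff_class {a : ℝ} (ha : 0 < a) (P : Class I) :
    (∀ e : Fin I → ℕ, Moments P e) ↔ Laws P ∧ ∀ n, BandBounded P a n := by
  constructor
  · intro h
    refine ⟨(laws_iff 0).2 ?_, band_of_moments ha P h⟩
    exact Pool.Agent.Q30.JL.conv_ee (good P 0) fun e => (moments_iff 0).1 (h e)
  · rintro ⟨hL, hB⟩ e
    exact moments_of_laws ha P _ (hB _) hL e rfl

lemma gmom_zero : gmom 0 = 1 := by simp [gmom]

/-- exponents which may be zero -/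
lemma all_exponents (h : Q1) (e : Fin I → ℕ) : Moments (Orth I) e := by
  classical
  set S : Type := {i : Fin I // e i ≠ 0} with hS
  obtain ⟨k, hk⟩ : ∃ k, Fintype.card S = k := ⟨_, rfl⟩
  set σ : Fin k ≃ S := (Fintype.equivFinOfCardEq hk).symm with hσ
  have hprod : ∀ {M : Type} [CommMonoid M] (g : Fin I → M), (∀ i, e i = 0 → g i = 1) →
      ∏ i, g i = ∏ j, g (σ j).1 := by
    intro M _ g hg
    have e1 : ∏ i ∈ Finset.univ.filter (fun i => e i ≠ 0), g i = ∏ i, g i := by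
      apply Finset.prod_filter_of_ne
      intro i _ hi h0
      exact hi (hg i h0)
    rw [← e1, Finset.prod_subtype (Finset.univ.filter fun i => e i ≠ 0) (p := fun i => e i ≠ 0) (by simp) g]
    exact (Equiv.prod_comp σ (fun i : S => g i.1)).symm
  intro ψ hψ ε hε
  rcases Nat.eq_zero_or_pos k with hk0 | hkpos
  · refine ⟨0, fun f _ => ?_⟩
    subst hk0
    have e1 : ∀ z, ∏ i, f i z ^ e i = 1 := by
      intro z
      rw [hprod (fun i => f i z ^ e i) fun i hi => by rw [hi, pow_zero]]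
      simp
    have e2 : ∏ i, gmom (e i) = 1 := by
      rw [hprod (fun i => gmom (e i)) fun i hi => by rw [hi, gmom_zero]]
      simp
    simp [e1, e2, hε]
  · obtain ⟨T, hT⟩ := h k hkpos (fun j => e (σ j).1) (fun j => Nat.pos_of_ne_zero (σ j).2) ψ hψ ε hε
    refine ⟨T, fun f hf => ?_⟩
    obtain ⟨t, ht, hP⟩ := hf
    have h1 := hT (fun j => f (σ j).1) ⟨fun j => t (σ j).1, fun j => ht _, fun i j hij => hP _ _ ?_⟩
    · have e1 : ∀ z, ∏ i, f i z ^ e i = ∏ j, f (σ j).1 z ^ e (σ j).1 := fun z =>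
        hprod (fun i => f i z ^ e i) fun i hi => by rw [hi, pow_zero]
      have e2 : ∏ i, gmom (e i) = ∏ j, gmom (e (σ j).1) :=
        hprod (fun i => gmom (e i)) fun i hi => by rw [hi, gmom_zero]
      simp_rw [e1]
      rw [e2]
      exact h1
    · intro hcon
      exact hij (σ.injective (Subtype.ext hcon))

/-- the hand-in -/
theorem result (a : ℝ) (ha : 0 < a) :
    -- order by order, along any class of tuples of forms
    (∀ (I : ℕ) (P : Class I) (n : ℕ), BandBounded P a (n + 1) → Laws P →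
      ∀ e : Fin I → ℕ, ∑ i, e i = n → Moments P e) ∧
    -- all orders, along any class
    (∀ (I : ℕ) (P : Class I), (∀ e : Fin I → ℕ, Moments P e) ↔ Laws P ∧ ∀ n, BandBounded P a n) ∧
    -- the conjecture
    (Q1 ↔ (∀ I : ℕ, Laws (Orth I)) ∧ ∀ n, BandBounded (Orth 1) a n) := by
  refine ⟨fun I P n hB hL e he => moments_of_laws ha P n hB hL e he, fun I P => iff_class ha P, ?_⟩
  constructor
  · intro h
    exact ⟨fun I => ((iff_class ha (Orth I)).1 (all_exponents h)).1, ((iff_class ha (Orth 1)).1 (all_exponents h)).2⟩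
  · rintro ⟨hL, hB⟩ I _ e _
    refine moments_of_laws ha (Orth I) _ ?_ (hL I) e rfl
    obtain ⟨C, T, hC⟩ := hB (∑ i, e i + 1)
    refine ⟨C, T, fun f hf i => ?_⟩
    obtain ⟨t, ht, hP⟩ := hf
    exact hC (fun _ => f i) ⟨fun _ => t i, fun _ => ht i, fun i j hij => absurd (Subsingleton.elim i j) hij⟩ 0

end Pool.Agent.Results.MP_a28cf0_nt.LawsAndOneBand
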