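import Pool.Agent.Q175.RW.TM3
import Pool.Agent.Results.MP_a28cf0_nt.SlowFactorsDecouple

/-!
# The total fourth moment of `f` controls its joint moments with other forms (MP_a28cf0_nt)

The plane is `ℂ`, with the upper half plane `HH` and `dμ = dx dy / y²`. `dx f z`, `dy f z` are the
partial derivatives `fderiv ℝ f z 1`, `fderiv ℝ f z I`; `TF U φ` says that `φ : ℂ → ℝ` is smooth
with compact support contained in `U`.

`U` is an open subset of `HH` of finite area, for instance the interior of a fundamental domain of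
the modular group (it need not be relatively compact), and the hypothesis is that the TOTAL fourth
moment of `f` over `U` is asymptotically at most the Gaussian one. The test functions are smooth and
bounded on `U`, not compactly supported; in particular `ψ = 1` is allowed.

Proof. The total bound gives the local fourth moments and the absence of escape of fourth moment at
the boundary of `U` (`Pool.Agent.Q175.RW.TM`). Then the local inequalities for `∫ φ f² g dμ` and
`∫ φ (f² - 1) G dμ` in terms of the excess of the local fourth moment apply, and the part near the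
boundary of `U` is at most a small multiple of `(∫ G² dμ)^(1/2)`.
-/

set_option autoImplicit false
open MeasureTheory Filter Topology Complex
open scoped ContDiff

namespace Pool.Agent.Results.MP_a28cf0_nt.TotalFourthMoment

open Pool.Agent.W745.RW (TF dx dy lap)

/-- the open upper half plane -/
def HH : Set ℂ := {z | 0 < z.im}

/-- the eigenvalue `1/4 + t²` -/
noncomputable def ev (t : ℝ) : ℝ := 1 / 4 + t ^ 2

/-- `f` is a smooth real solution of `-y² (∂x² + ∂y²) f = (1/4 + t²) f` on the upper half plane -/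
def Eig (t : ℝ) (f : ℂ → ℝ) : Prop :=
  ContDiffOn ℝ ∞ f HH ∧ ∀ z ∈ HH, -(z.im ^ 2 * (dx (dx f) z + dy (dy f) z)) = ev t * f z

/-- the operator `f ↦ lam^{-1/2} y (∂x f - i ∂y f)` -/
noncomputable def RO (lam : ℝ) (f : ℂ → ℂ) (z : ℂ) : ℂ :=
  ((z.im / √lam : ℝ) : ℂ) * (dx f z - I * dy f z)

/-- quantum unique ergodicity in microlocal form: `∫ φ f (RO^k f) dμ → ∫ φ dμ` for `k = 0`, and
`→ 0` for `k ≥ 1` -/
def QUE (t : ℕ → ℝ) (f : ℕ → ℂ → ℝ) : Prop :=
  ∀ φ, TF HH φ → ∀ k : ℕ, Tendsto (fun n => ∫ z, ((φ z / z.im ^ 2 : ℝ) : ℂ) *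
    ((f n z : ℂ) * (RO (ev (t n)))^[k] (fun w => (f n w : ℂ)) z)) atTop
    (𝓝 (if k = 0 then ((∫ z, φ z / z.im ^ 2 : ℝ) : ℂ) else 0))

/-- `F n` is square integrable on `U` for all `n`, and `∫_U F² dμ` is bounded for large `n` -/
def L2Bdd (U : Set ℂ) (F : ℕ → ℂ → ℝ) : Prop :=
  (∀ n, IntegrableOn (fun z => F n z ^ 2 / z.im ^ 2) U) ∧
    ∃ C : ℝ, ∀ᶠ n in atTop, ∫ z in U, F n z ^ 2 / z.im ^ 2 ≤ C

/-- the integral `∫_U F dμ` -/
noncomputable def IU (U : Set ℂ) (F : ℂ → ℝ) : ℝ := ∫ z in U, F z / z.im ^ 2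

lemma ev_pos (t : ℝ) : 0 < ev t := by unfold ev; positivity

lemma HHo : IsOpen HH := isOpen_lt continuous_const continuous_im

lemma ev_lim {t : ℕ → ℝ} (ht : Tendsto t atTop atTop) :
    Tendsto (fun n => ev (t n)) atTop atTop :=
  tendsto_atTop_add_const_left _ _ ((tendsto_pow_atTop two_ne_zero).comp ht)

/-- **Result.** Let `f n` be real eigenfunctions of the hyperbolic Laplacian on the upper half
plane with spectral parameters `t n → ∞` that satisfy microlocal quantum unique ergodicity. Let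
`U` be an open set of finite area with `limsup ∫_U f⁴ dμ ≤ 3 μ(U)`, and let `ψ` be smooth and
bounded on `U`.

1. For all eigenfunctions `g n` with spectral parameters `s n → ∞`, bounded in `L²(U, dμ)`,
`∫_U ψ f² g dμ → 0`.
2. For all products `G n = ∏ i, (g i n) ^ (a i)` of powers of eigenfunctions `g i n` with spectral
parameters `|s i n| ≤ (t n)^(1 - δ)`, bounded in `L²(K, dμ)` for all compact `K ⊆ HH`: if the `G n`
are bounded in `L²(U, dμ)` then `∫_U ψ f² G dμ - ∫_U ψ G dμ → 0`. -/
theorem result (t : ℕ → ℝ) (ht : Tendsto t atTop atTop) (f : ℕ → ℂ → ℝ)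
    (hf : ∀ n, Eig (t n) (f n)) (hqe : QUE t f)
    (U : Set ℂ) (hU : IsOpen U) (hUH : U ⊆ HH) (hfin : IntegrableOn (fun z : ℂ => 1 / z.im ^ 2) U)
    (h4i : ∀ n, IntegrableOn (fun z => f n z ^ 4 / z.im ^ 2) U)
    (h4 : ∀ ε : ℝ, 0 < ε → ∀ᶠ n in atTop,
      IU U (fun z => f n z ^ 4) ≤ 3 * IU U (fun _ => 1) + ε)
    (ψ : ℂ → ℝ) (hψ : ContDiffOn ℝ ∞ ψ U) (hψb : ∃ M : ℝ, ∀ z ∈ U, |ψ z| ≤ M) :
    (∀ (s : ℕ → ℝ) (g : ℕ → ℂ → ℝ), Tendsto s atTop atTop → (∀ n, Eig (s n) (g n)) → L2Bdd U g →
      Tendsto (fun n => IU U (fun z => ψ z * (f n z ^ 2 * g n z))) atTop (𝓝 0)) ∧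
    (∀ (m : ℕ) (a : Fin m → ℕ) (δ : ℝ) (s : Fin m → ℕ → ℝ) (g : Fin m → ℕ → ℂ → ℝ), 0 < δ →
      (∀ i n, Eig (s i n) (g i n)) → (∀ i, ∀ᶠ n in atTop, |s i n| ≤ t n ^ (1 - δ)) →
      (∀ i, ∀ K : Set ℂ, IsCompact K → K ⊆ HH →
        ∃ C : ℝ, ∀ᶠ n in atTop, ∫ z in K, g i n z ^ 2 / z.im ^ 2 ≤ C) →
      L2Bdd U (fun n z => ∏ i, g i n z ^ a i) →
      Tendsto (fun n => IU U (fun z => ψ z * (f n z ^ 2 * ∏ i, g i n z ^ a i)) -
        IU U (fun z => ψ z * ∏ i, g i n z ^ a i)) atTop (𝓝 0)) := by
  obtain ⟨M, hM⟩ := hψb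
  have X : Pool.Agent.Q175.RW.TM.TD U (fun n => ev (t n)) f := by
    refine ⟨hU, hUH, hfin, fun n => ev_pos _, ev_lim ht, fun n => (hf n).1.mono hUH,
      fun n z hz => ?_, fun φ hφ k => hqe φ ⟨hφ.1, hφ.2.1, hφ.2.2.trans hUH⟩ k, h4i, h4⟩
    have h1 := (hf n).2 z (hUH hz)
    have h2 : lap (f n) z = dx (dx (f n)) z + dy (dy (f n)) z := rfl
    rw [h2]; linarith
  have iy : ContDiffOn ℝ ∞ (fun z : ℂ => (z.im ^ 2)⁻¹) U := by
    refine ContDiffOn.inv ((imCLM.contDiff.pow 2).contDiffOn) fun z hz => ?_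
    have : 0 < z.im := hUH hz
    exact pow_ne_zero 2 this.ne'
  refine ⟨fun s g hs hg hb => ?_, fun m a δ s g hδ hg hst hgb hb => ?_⟩
  · obtain ⟨iP, C, hP⟩ := hb
    have D : Pool.Agent.Y265.HY.JC.JD U (fun n => ev (t n)) (fun n => ev (s n)) f g := by
      refine ⟨hU, hUH, fun n => ev_pos _, ev_lim ht, fun n => ev_pos _, ev_lim hs,
        fun n => (hf n).1.mono hUH, fun n => (hg n).1.mono hUH, X.ef, fun n z hz => ?_,
        fun K hK hKU => ?_, fun φ hφ k => hqe φ ⟨hφ.1, hφ.2.1, hφ.2.2.trans hUH⟩ k⟩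
      · have h1 := (hg n).2 z (hUH hz)
        have h2 : lap (g n) z = dx (dx (g n)) z + dy (dy (g n)) z := rfl
        rw [h2]; linarith
      · obtain ⟨C', hC'0, hC'⟩ :=
          Pool.Agent.Results.MP_a28cf0_nt.SlowFactorsDecouple.cmp_bd hK (hKU.trans hUH)
        refine ⟨C' * C, hP.mono fun n hn => ?_⟩
        have h1 := hC' (fun z => g n z ^ 2) (((hg n).1.continuousOn.mono (hKU.trans hUH)).pow 2)
          (fun z => by positivity)
        have h2 : ∫ z in K, g n z ^ 2 / z.im ^ 2 ≤ ∫ z in U, g n z ^ 2 / z.im ^ 2 := by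
          refine setIntegral_mono_set (iP n) ?_ hKU.eventuallyLE
          exact ae_of_all _ fun z => div_nonneg (sq_nonneg _) (sq_nonneg _)
        exact h1.trans (mul_le_mul_of_nonneg_left (h2.trans hn) hC'0.le)
    exact X.cubic D iP hP hψ hM
  · obtain ⟨iP, C, hP⟩ := hb
    have sG : ∀ n, ContinuousOn (fun z => ∏ i, g i n z ^ a i) U := fun n =>
      continuousOn_finsetProd _ fun i _ => ((hg i n).1.continuousOn.mono hUH).pow (a i)
    have key := X.trunc (A := fun n z => f n z ^ 2 - 1) (P := fun n z => ∏ i, g i n z ^ a i)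
      (fun n => ((X.sf n).continuousOn.pow 2).sub continuousOn_const) sG (fun n z _ => by
        rw [abs_le]; constructor <;> nlinarith [sq_nonneg (f n z)]) iP hP hψ hM ?_
    · refine key.congr fun n => ?_
      unfold IU
      have i2 : IntegrableOn (fun z => ψ z * (∏ i, g i n z ^ a i) / z.im ^ 2) U := by
        have i0 : IntegrableOn (fun z => 1 / z.im ^ 2 + (∏ i, g i n z ^ a i) ^ 2 / z.im ^ 2) U :=
          hfin.add (iP n)
        have c1 : ContinuousOn (fun z => (∏ i, g i n z ^ a i) / z.im ^ 2) U :=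
          (sG n).div (continuous_im.continuousOn.pow 2) fun z hz => by
            have : 0 < z.im := hUH hz
            exact pow_ne_zero 2 this.ne'
        have i1 : IntegrableOn (fun z => (∏ i, g i n z ^ a i) / z.im ^ 2) U := by
          refine Integrable.mono' i0 (c1.aestronglyMeasurable hU.measurableSet) ?_
          refine ae_of_all _ fun z => ?_
          rw [Real.norm_eq_abs, abs_div, abs_of_nonneg (sq_nonneg z.im), ← add_div]
          refine div_le_div_of_nonneg_right ?_ (sq_nonneg _)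
          nlinarith [sq_nonneg (|∏ i, g i n z ^ a i| - 1), sq_abs (∏ i, g i n z ^ a i),
            abs_nonneg (∏ i, g i n z ^ a i)]
        have := Integrable.bdd_mul (c := M) i1
          (hψ.continuousOn.aestronglyMeasurable hU.measurableSet)
          ((ae_restrict_mem hU.measurableSet).mono fun z hz => hM z hz)
        refine this.congr (Eventually.of_forall fun z => ?_)
        show ψ z * ((∏ i, g i n z ^ a i) / z.im ^ 2) = _
        ring
      have i3 : IntegrableOn (fun z => ψ z * (f n z ^ 2 * ∏ i, g i n z ^ a i) / z.im ^ 2) U := by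
        have i0 : IntegrableOn (fun z => f n z ^ 4 / z.im ^ 2 +
            (∏ i, g i n z ^ a i) ^ 2 / z.im ^ 2) U := (h4i n).add (iP n)
        have c1 : ContinuousOn (fun z => (f n z ^ 2 * ∏ i, g i n z ^ a i) / z.im ^ 2) U :=
          (((X.sf n).continuousOn.pow 2).mul (sG n)).div (continuous_im.continuousOn.pow 2)
            fun z hz => by
            have : 0 < z.im := hUH hz
            exact pow_ne_zero 2 this.ne'
        have i1 : IntegrableOn (fun z => (f n z ^ 2 * ∏ i, g i n z ^ a i) / z.im ^ 2) U := by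
          refine Integrable.mono' i0 (c1.aestronglyMeasurable hU.measurableSet) ?_
          refine ae_of_all _ fun z => ?_
          rw [Real.norm_eq_abs, abs_div, abs_of_nonneg (sq_nonneg z.im), ← add_div]
          refine div_le_div_of_nonneg_right ?_ (sq_nonneg _)
          rw [abs_mul, abs_of_nonneg (sq_nonneg (f n z))]
          nlinarith [sq_nonneg (|∏ i, g i n z ^ a i| - f n z ^ 2), sq_abs (∏ i, g i n z ^ a i),
            abs_nonneg (∏ i, g i n z ^ a i), sq_nonneg (f n z),
            mul_nonneg (sq_nonneg (f n z)) (abs_nonneg (∏ i, g i n z ^ a i))]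
        have := Integrable.bdd_mul (c := M) i1
          (hψ.continuousOn.aestronglyMeasurable hU.measurableSet)
          ((ae_restrict_mem hU.measurableSet).mono fun z hz => hM z hz)
        refine this.congr (Eventually.of_forall fun z => ?_)
        show ψ z * ((f n z ^ 2 * ∏ i, g i n z ^ a i) / z.im ^ 2) = _
        ring
      rw [← integral_sub i3 i2]
      congr 1; funext z; ring
    · intro φ hφ
      obtain ⟨b, b0, hb'⟩ := Pool.Agent.Q175.RW.TM.tf_bd hφ
      obtain ⟨c, c1, c2, c3, c4⟩ := Pool.Agent.TH294.RS.exists_cut hU hφ.2.1 hφ.2.2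
      have tc : TF U (fun z => c z * b) := Pool.Agent.TH294.RS.TF.mulc hU c1 contDiffOn_const
      have hφc : ∀ z, |φ z| ≤ c z * b := by
        intro z
        by_cases hz : z ∈ tsupport φ
        · rw [c2 z hz, one_mul]; exact hb' z
        · rw [image_eq_zero_of_notMem_tsupport hz, abs_zero]
          exact mul_nonneg (c3 z) b0.le
      have S := Pool.Agent.Results.MP_a28cf0_nt.SlowFactorsDecouple.result m a δ hδ t f s g ht hf
        hqe hg hst hgb φ (fun z => c z * b) ⟨hφ.1, hφ.2.1, hφ.2.2.trans hUH⟩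
        ⟨tc.1, tc.2.1, tc.2.2.trans hUH⟩ hφc
      have l := X.loc tc
      have e0 : Tendsto (fun n => Pool.Agent.Results.MP_a28cf0_nt.SlowFactorsDecouple.ex
          (fun z => c z * b) (f n)) atTop (𝓝 0) := by
        have := l.sub_const (3 * ∫ z, c z * b / z.im ^ 2)
        rw [sub_self] at this
        exact this
      have e1 : ∃ C : ℝ, ∀ᶠ n in atTop, Pool.Agent.Results.MP_a28cf0_nt.SlowFactorsDecouple.II
          (fun z => c z * b) (fun z => (∏ i, g i n z ^ a i) ^ 2) ≤ C := by
        refine ⟨b * C, hP.mono fun n hn => ?_⟩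
        unfold Pool.Agent.Results.MP_a28cf0_nt.SlowFactorsDecouple.II
        rw [← X.onU tc]
        have r1 : ∫ z in U, c z * b * (∏ i, g i n z ^ a i) ^ 2 / z.im ^ 2 ≤
            ∫ z in U, b * ((∏ i, g i n z ^ a i) ^ 2 / z.im ^ 2) := by
          have i0 : IntegrableOn (fun z => c z * b * (∏ i, g i n z ^ a i) ^ 2 / z.im ^ 2) U := by
            have := Integrable.bdd_mul (c := b) (iP n) (tc.1.continuous.aestronglyMeasurable)
              (ae_of_all _ fun z => by
                rw [Real.norm_eq_abs, abs_of_nonneg (mul_nonneg (c3 z) b0.le)]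
                exact mul_le_of_le_one_left b0.le (c4 z))
            refine this.congr (Eventually.of_forall fun z => ?_)
            show c z * b * ((∏ i, g i n z ^ a i) ^ 2 / z.im ^ 2) = _
            ring
          refine setIntegral_mono_on i0 ((iP n).const_mul _) hU.measurableSet fun z hz => ?_
          rw [mul_div_assoc]
          exact mul_le_mul_of_nonneg_right (mul_le_of_le_one_left b0.le (c4 z)) (by positivity)
        rw [integral_const_mul] at r1
        exact r1.trans (mul_le_mul_of_nonneg_left hn b0.le)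
      have S2 := S.2 e0 e1
      refine S2.congr fun n => ?_
      unfold Pool.Agent.Results.MP_a28cf0_nt.SlowFactorsDecouple.II
      have tp : TF U (fun z => φ z / z.im ^ 2) := Pool.Agent.TH294.RS.TF.mulc hU hφ iy
      have i1 : Integrable (fun z => φ z * (f n z ^ 2 * ∏ i, g i n z ^ a i) / z.im ^ 2) := by
        have := Pool.Agent.W311.RW.int_mul hU tp (((X.sf n).continuousOn.pow 2).mul (sG n))
        refine this.congr (Eventually.of_forall fun z => ?_)
        show φ z / z.im ^ 2 * (f n z ^ 2 * ∏ i, g i n z ^ a i) = _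
        ring
      have i2 : Integrable (fun z => φ z * (∏ i, g i n z ^ a i) / z.im ^ 2) := by
        have := Pool.Agent.W311.RW.int_mul hU tp (sG n)
        refine this.congr (Eventually.of_forall fun z => ?_)
        show φ z / z.im ^ 2 * (∏ i, g i n z ^ a i) = _
        ring
      rw [← integral_sub i1 i2]
      congr 1; funext z; ring

end Pool.Agent.Results.MP_a28cf0_nt.TotalFourthMoment
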